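import Pool.Agent.Helper43.Tits.Class

set_option autoImplicit false

/-!
Subgroups of the group of real-analytic diffeomorphisms of the line that belong to the smallest
class of groups containing all groups without free subsemigroups and closed under subgroups,
quotients, extensions and directed unions.  The class `Tame` is defined in
`Pool/Agent/Helper43/Tits/Class.lean`.
-/

namespace Pool.Agent.Results.MP_b852ed_al.TameSubgroups

open Set Pool.Agent.Helper43.Tits

theorem metab_derived {G : Subgroup (Equiv.Perm ℝ)} (h : Metab G) : derivedSeries G 2 = ⊥ := by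
  apply derived_two
  intro a b c d
  apply Subtype.ext
  simp only [Subgroup.coe_mul, Subgroup.coe_inv]
  exact h a a.2 b b.2 c c.2 d d.2

/-- the subgroup of increasing maps -/
def incr (G : Subgroup (Equiv.Perm ℝ)) : Subgroup G where
  carrier := {g | StrictMono (⇑(g : Equiv.Perm ℝ))}
  one_mem' := by
    show StrictMono (⇑((1 : G) : Equiv.Perm ℝ))
    rw [Subgroup.coe_one]
    exact one_mem_An.2
  mul_mem' := by
    intro a b ha hb
    show StrictMono (⇑((a * b : G) : Equiv.Perm ℝ))
    rw [Subgroup.coe_mul, Equiv.Perm.coe_mul]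
    exact StrictMono.comp ha hb
  inv_mem' := by
    intro a ha
    show StrictMono (⇑((a⁻¹ : G) : Equiv.Perm ℝ))
    rw [Subgroup.coe_inv]
    exact inv_strictMono ha

theorem mem_incr {G : Subgroup (Equiv.Perm ℝ)} {g : G} :
    g ∈ incr G ↔ StrictMono (⇑(g : Equiv.Perm ℝ)) := Iff.rfl

theorem mono_or_anti {G : Subgroup (Equiv.Perm ℝ)}
    (hG : ∀ f ∈ G, AnalyticOnNhd ℝ (⇑f) univ) (g : G) :
    StrictMono (⇑(g : Equiv.Perm ℝ)) ∨ StrictAnti (⇑(g : Equiv.Perm ℝ)) := by
  have hc : Continuous (⇑(g : Equiv.Perm ℝ)) :=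
    continuous_iff_continuousAt.2 fun x => (hG g g.2 x (mem_univ x)).continuousAt
  exact hc.strictMono_of_inj (Equiv.injective _)

theorem not_both {f : ℝ → ℝ} (h1 : StrictMono f) (h2 : StrictAnti f) : False :=
  lt_irrefl _ ((h1 (zero_lt_one' ℝ)).trans (h2 (zero_lt_one' ℝ)))

theorem index_incr {G : Subgroup (Equiv.Perm ℝ)}
    (hG : ∀ f ∈ G, AnalyticOnNhd ℝ (⇑f) univ) : (incr G).index = 1 ∨ (incr G).index = 2 := by
  by_cases h : ∀ g : G, StrictMono (⇑(g : Equiv.Perm ℝ))
  · left
    rw [Subgroup.index_eq_one]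
    exact eq_top_iff.2 fun g _ => h g
  · right
    push Not at h
    obtain ⟨a, ha⟩ := h
    have ha' : StrictAnti (⇑(a : Equiv.Perm ℝ)) := (mono_or_anti hG a).resolve_left ha
    rw [Subgroup.index_eq_two_iff]
    refine ⟨a, fun b => ?_⟩
    rcases mono_or_anti hG b with hb | hb
    · right
      refine ⟨hb, fun hba => ?_⟩
      have h1 : StrictMono (⇑((b * a : G) : Equiv.Perm ℝ)) := hba
      rw [Subgroup.coe_mul, Equiv.Perm.coe_mul] at h1
      exact not_both h1 (hb.comp_strictAnti ha')
    · left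
      refine ⟨?_, fun hb' => not_both hb' hb⟩
      show StrictMono (⇑((b * a : G) : Equiv.Perm ℝ))
      rw [Subgroup.coe_mul, Equiv.Perm.coe_mul]
      exact hb.comp ha'

theorem tame_of_inj {G H : Type} [Group G] [Group H] (f : H →* G) (hf : Function.Injective f)
    (hG : Tame G) : Tame H :=
  fun P hP => hP.sub G H f hf (hG P hP)

theorem tame_map {G : Subgroup (Equiv.Perm ℝ)} (N : Subgroup G) (hN : Tame N) :
    Tame (N.map G.subtype) := by
  have e := N.equivMapOfInjective G.subtype G.subtype_injective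
  exact tame_of_inj e.symm.toMonoidHom e.symm.injective hN

theorem metab_map {G : Subgroup (Equiv.Perm ℝ)} (N : Subgroup G)
    (h : Metab (N.map G.subtype)) : derivedSeries N 2 = ⊥ := by
  apply derived_two
  intro a b c d
  apply Subtype.ext
  apply Subtype.ext
  simp only [Subgroup.coe_mul, Subgroup.coe_inv]
  exact h a ⟨a, a.2, rfl⟩ b ⟨b, b.2, rfl⟩ c ⟨c, c.2, rfl⟩ d ⟨d, d.2, rfl⟩

/-- (1) Every group of real-analytic diffeomorphisms of the line in the class `Tame` has a
metabelian subgroup of index at most two.  (2) A normal subgroup in the class `Tame` of a group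
of increasing real-analytic diffeomorphisms of the line is central and cyclic, and non-trivial
only if generated by a map without fixed points, unless the whole group is metabelian. -/
theorem result :
    (∀ G : Subgroup (Equiv.Perm ℝ), (∀ f ∈ G, AnalyticOnNhd ℝ (⇑f) univ) → Tame G →
      ∃ H : Subgroup G, (H.index = 1 ∨ H.index = 2) ∧ derivedSeries H 2 = ⊥) ∧
    (∀ G : Subgroup (Equiv.Perm ℝ), (∀ f ∈ G, AnalyticOnNhd ℝ (⇑f) univ) →
      (∀ f ∈ G, StrictMono (⇑f)) → ∀ N : Subgroup G, N.Normal → Tame N →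
        derivedSeries G 2 = ⊥ ∨ ∃ b : G, N = Subgroup.zpowers b ∧ (∀ g : G, g * b = b * g) ∧
          (b = 1 ∨ ∀ x : ℝ, (b : Equiv.Perm ℝ) x ≠ x)) := by
  refine ⟨?_, ?_⟩
  · intro G hG hT
    refine ⟨incr G, index_incr hG, ?_⟩
    apply metab_map
    apply tame_metab
    · rintro _ ⟨g, hg, rfl⟩
      exact ⟨hG g g.2, hg⟩
    · exact tame_map _ (tame_of_inj (incr G).subtype (Subgroup.subtype_injective _) hT)
  · intro G hG hm N hN hT
    have hAn : AnGrp G := fun f hf => ⟨hG f hf, hm f hf⟩
    set M := N.map G.subtype with hM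
    have hMG : M ≤ G := by
      rintro _ ⟨g, _, rfl⟩
      exact g.2
    have hMAn : AnGrp M := fun f hf => hAn f (hMG hf)
    have hMM : Metab M := tame_metab M hMAn (tame_map N hT)
    by_cases hne : ∃ z ∈ M, z ≠ 1
    · have hnorm : ∀ g ∈ G, ∀ a ∈ M, g * a * g⁻¹ ∈ M := by
        rintro g hg _ ⟨a, ha, rfl⟩
        exact ⟨(⟨g, hg⟩ : G) * a * (⟨g, hg⟩ : G)⁻¹, hN.conj_mem a ha _, rfl⟩
      rcases normal_metab hAn hMG hnorm hMM hne with h | ⟨b, hb, hgen, hbf, hcen⟩
      · exact Or.inl (metab_derived h)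
      · right
        obtain ⟨c, hc, rfl⟩ := hb
        refine ⟨c, ?_, ?_, Or.inr hbf⟩
        · apply le_antisymm
          · intro a ha
            obtain ⟨m, hm'⟩ := hgen _ ⟨a, ha, rfl⟩
            refine ⟨m, ?_⟩
            apply Subtype.ext
            simpa using hm'.symm
          · rw [Subgroup.zpowers_le]
            exact hc
        · intro g
          apply Subtype.ext
          exact hcen g g.2
    · push Not at hne
      right
      refine ⟨1, ?_, fun g => by rw [mul_one, one_mul], Or.inl rfl⟩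
      rw [Subgroup.zpowers_one_eq_bot, eq_bot_iff]
      intro a ha
      have := hne _ ⟨a, ha, rfl⟩
      rw [Subgroup.mem_bot]
      exact Subtype.ext this

end Pool.Agent.Results.MP_b852ed_al.TameSubgroups
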